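import Pool.Agent.W662.SK.StmtsA

set_option autoImplicit false

/-!
# Recursion for the chain vectors
-/

namespace Pool.Agent.W368.SK.A5

open Pool.Agent.W662.SK

theorem a5 (h3 : S_A3) (h4 : S_A4) : S_A5 := by
  intro t ht0 ht1 L p hL
  have h1 : rp t (FreeGroup.mk (L ++ [p])) = rp t (FreeGroup.mk L) * rp t (lt p) := by
    rw [← map_mul]
    rfl
  have h2 : vv t (L ++ [p]) = rp t (FreeGroup.mk L) (rp t (lt p) (dl 1)) := by
    unfold vv
    rw [h1]
    rfl
  rw [h2, (h3 t ht0 ht1 p).1, map_add, map_smul, map_smul, h4 t ht0 ht1 L p hL]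
  rfl

end Pool.Agent.W368.SK.A5
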